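import Pool.Agent.Helper30.PB.St

/-!
# Project PB, module CLP: a residue class by the Chinese remainder theorem
-/

set_option autoImplicit false

noncomputable section

namespace Pool.Agent.Helper22.PB

open Finset ArithmeticFunction
open Pool.Agent.Helper30.PB
open Pool.Agent.Helper93.KN (ff StSieve StAvg)
open Pool.Agent.Helper48.BK (StSW th)

/-- the residue modulo `l` -/
private def rr (a l : ℕ) : ℕ := if l = 2 then 1 else if l ∣ 2 * a + 3 then l - 1 else 1

private lemma rr_not_dvd (a l : ℕ) (hl : l.Prime) : ¬ l ∣ rr a l := by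
  unfold rr
  have h2 := hl.two_le
  split_ifs with h h'
  · exact fun hd => by
      have := Nat.le_of_dvd one_pos hd
      omega
  · exact fun hd => by
      have := Nat.le_of_dvd (by omega) hd
      omega
  · exact fun hd => by
      have := Nat.le_of_dvd one_pos hd
      omega

private lemma main_not_dvd (a l p : ℕ) (hl : l.Prime) (hl2 : l ≠ 2) (hp : p ≡ rr a l [MOD l]) :
    ¬ l ∣ 2 * a + (p ^ 2 + p + 1) := by
  intro hd
  unfold rr at hp
  rw [if_neg hl2] at hp
  split_ifs at hp with h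
  · -- `p ≡ - 1`
    have h1 : l ∣ p + 1 := by
      have h3 : p + 1 ≡ (l - 1) + 1 [MOD l] := hp.add_right 1
      have h4 : (l - 1) + 1 = l := by
        have := hl.two_le
        omega
      rw [h4] at h3
      exact (Nat.modEq_zero_iff_dvd.1 (h3.trans (Nat.modEq_zero_iff_dvd.2 dvd_rfl)))
    have h2 : l ∣ 2 * a + 1 := by
      have h3 : 2 * a + (p ^ 2 + p + 1) = p * (p + 1) + (2 * a + 1) := by ring
      rw [h3] at hd
      exact (Nat.dvd_add_right (h1.mul_left p)).1 hd
    have h3 : l ∣ 2 := by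
      have h4 : 2 * a + 3 = (2 * a + 1) + 2 := by ring
      rw [h4] at h
      exact (Nat.dvd_add_right h2).1 h
    exact hl2 ((Nat.prime_dvd_prime_iff_eq hl Nat.prime_two).1 h3)
  · apply h
    have h1 : (l : ℤ) ∣ (p : ℤ) - 1 := by
      have h3 := (Nat.modEq_iff_dvd.1 hp.symm)
      push_cast at h3
      exact h3
    have h2 : (l : ℤ) ∣ 2 * (a : ℤ) + ((p : ℤ) ^ 2 + p + 1) := by
      exact_mod_cast hd
    have h3 : (l : ℤ) ∣ 2 * (a : ℤ) + 3 := by
      have h4 : 2 * (a : ℤ) + 3 = (2 * (a : ℤ) + ((p : ℤ) ^ 2 + p + 1)) -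
          ((p : ℤ) - 1) * ((p : ℤ) + 2) := by ring
      rw [h4]
      exact dvd_sub h2 (h1.mul_right _)
    exact_mod_cast h3

theorem hCLP : StCLP := by
  intro Q a hQ
  obtain ⟨b, hb⟩ := Nat.chineseRemainderOfFinset (fun l => rr a l) (fun l => l) Q.primeFactors
    (fun l hl => (Nat.prime_of_mem_primeFactors hl).ne_zero) (by
      intro l hl l' hl' hne
      exact (Nat.coprime_primes (Nat.prime_of_mem_primeFactors hl)
        (Nat.prime_of_mem_primeFactors hl')).2 hne)
  have hb' : ∀ l, l.Prime → l ∣ Q → b ≡ rr a l [MOD l] := fun l hl hd =>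
    hb l (Nat.mem_primeFactors.2 ⟨hl, hd, by omega⟩)
  refine ⟨b, ?_, ?_⟩
  · apply Nat.coprime_of_dvd
    intro l hl hlb hlQ
    apply rr_not_dvd a l hl
    have h1 := hb' l hl hlQ
    exact (Nat.modEq_zero_iff_dvd.1 (h1.symm.trans (Nat.modEq_zero_iff_dvd.2 hlb)))
  · intro p hp
    apply Nat.coprime_of_dvd
    intro l hl hlb hlQ
    by_cases h2 : l = 2
    · subst h2
      have h3 : 2 * a + (p ^ 2 + p + 1) = 2 * a + p * (p + 1) + 1 := by ring
      rw [h3] at hlb
      have h4 : 2 ∣ p * (p + 1) := (Nat.even_mul_succ_self p).two_dvd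
      omega
    · have hlQ' : l ∣ Q := by
        rcases (Nat.Prime.dvd_mul hl).1 hlQ with h | h
        · exact absurd ((Nat.prime_dvd_prime_iff_eq hl Nat.prime_two).1 h) h2
        · exact h
      have h3 : p ≡ b [MOD l] := by
        have : p ≡ b [MOD Q] := hp
        exact this.of_dvd hlQ'
      exact main_not_dvd a l p hl h2 (h3.trans (hb' l hl hlQ')) hlb

end Pool.Agent.Helper22.PB
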